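import Mathlib

/-!
# The polarity type graph on `F_p^2` (MP_ff6f12_co)

`(a,b) ~ (c,d)` iff `b + d = a c`: codegrees at most one, and an edge between any two sets with
`|A| |B| > p^3`.
-/

set_option autoImplicit false

namespace Pool.Agent.NSR.H27

open Finset

variable {p : ℕ} [Fact p.Prime]

/-- the relation `b + d = a c` -/
def Rel (x y : ZMod p × ZMod p) : Prop := x.2 + y.2 = x.1 * y.1

instance : DecidableRel (Rel (p := p)) := fun x y => by unfold Rel; infer_instance

theorem rel_symm {x y : ZMod p × ZMod p} (h : Rel x y) : Rel y x := by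
  unfold Rel at *
  rw [add_comm, h, mul_comm]

/-- two different points have at most one common neighbour -/
theorem codeg {x x' y y' : ZMod p × ZMod p} (hx : x ≠ x') (h1 : Rel x y) (h2 : Rel x y')
    (h3 : Rel x' y) (h4 : Rel x' y') : y = y' := by
  unfold Rel at *
  have e1 : x.2 - x'.2 = (x.1 - x'.1) * y.1 := by linear_combination h1 - h3
  have e2 : x.2 - x'.2 = (x.1 - x'.1) * y'.1 := by linear_combination h2 - h4
  have e3 : (x.1 - x'.1) * (y.1 - y'.1) = 0 := by linear_combination e2 - e1
  rcases mul_eq_zero.1 e3 with h | h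
  · exfalso
    apply hx
    rw [h, zero_mul] at e1
    exact Prod.ext (sub_eq_zero.1 h) (sub_eq_zero.1 e1)
  · have h5 : y.1 = y'.1 := sub_eq_zero.1 h
    refine Prod.ext h5 ?_
    rw [← h5] at h2
    have : x.2 + y.2 = x.2 + y'.2 := by rw [h1, h2]
    exact add_left_cancel this

theorem deg (x : ZMod p × ZMod p) :
    (univ.filter fun y : ZMod p × ZMod p => Rel x y).card = p := by
  have e : (univ.filter fun y : ZMod p × ZMod p => Rel x y) =
      (univ : Finset (ZMod p)).image fun c => (c, x.1 * c - x.2) := by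
    ext y
    simp only [mem_filter, mem_univ, true_and, mem_image]
    constructor
    · intro h
      refine ⟨y.1, Prod.ext rfl ?_⟩
      unfold Rel at h
      show x.1 * y.1 - x.2 = y.2
      rw [← h]
      ring
    · rintro ⟨c, rfl⟩
      unfold Rel
      ring
  rw [e, Finset.card_image_of_injective _ (fun a b h => (Prod.ext_iff.1 h).1), Finset.card_univ,
    ZMod.card]

/-- an edge between any two large sets -/
theorem edge (A B : Finset (ZMod p × ZMod p)) (h : ∀ x ∈ A, ∀ y ∈ B, ¬ Rel x y) :
    A.card * B.card ≤ p ^ 3 := by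
  rcases Nat.eq_zero_or_pos A.card with h0 | h0
  · rw [h0, zero_mul]
    exact Nat.zero_le _
  set N : ZMod p × ZMod p → ℤ := fun y => ((A.filter fun x => Rel x y).card : ℤ) with hN
  have hN' : ∀ y, N y = ∑ x ∈ A, (if Rel x y then (1 : ℤ) else 0) := by
    intro y
    rw [hN]
    simp only [Finset.card_filter]
    push_cast
    rfl
  have s1 : ∑ y, N y = (A.card : ℤ) * p := by
    calc ∑ y, N y = ∑ y, ∑ x ∈ A, (if Rel x y then (1 : ℤ) else 0) :=
          Finset.sum_congr rfl fun y _ => hN' y
      _ = ∑ x ∈ A, ∑ y, (if Rel x y then (1 : ℤ) else 0) := Finset.sum_comm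
      _ = ∑ x ∈ A, (p : ℤ) := by
          apply Finset.sum_congr rfl
          intro x _
          have := deg (p := p) x
          rw [Finset.card_filter] at this
          exact_mod_cast this
      _ = _ := by rw [Finset.sum_const, nsmul_eq_mul]
  have s2 : ∑ y, N y ^ 2 ≤ (A.card : ℤ) * p + (A.card : ℤ) ^ 2 := by
    have e1 : ∀ y, N y ^ 2 = ∑ x ∈ A, ∑ x' ∈ A,
        (if Rel x y ∧ Rel x' y then (1 : ℤ) else 0) := by
      intro y
      rw [hN' y, sq, Finset.sum_mul_sum]
      apply Finset.sum_congr rfl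
      intro x _
      apply Finset.sum_congr rfl
      intro x' _
      by_cases a : Rel x y
      · by_cases b : Rel x' y
        · rw [if_pos a, if_pos b, if_pos ⟨a, b⟩, one_mul]
        · rw [if_neg b, mul_zero, if_neg (fun c => b c.2)]
      · rw [if_neg a, zero_mul, if_neg (fun c => a c.1)]
    have e2 : ∀ x ∈ A, ∀ x' ∈ A, ∑ y, (if Rel x y ∧ Rel x' y then (1 : ℤ) else 0) ≤
        (if x = x' then (p : ℤ) else 0) + 1 := by
      intro x _ x' _
      by_cases hxx : x = x'
      · subst hxx
        rw [if_pos rfl]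
        have : ∑ y, (if Rel x y ∧ Rel x y then (1 : ℤ) else 0) = p := by
          have := deg (p := p) x
          rw [Finset.card_filter] at this
          simp only [and_self]
          exact_mod_cast this
        rw [this]
        linarith
      · rw [if_neg hxx, zero_add]
        have hc : (univ.filter fun y : ZMod p × ZMod p => Rel x y ∧ Rel x' y).card ≤ 1 := by
          rw [Finset.card_le_one]
          intro y hy y' hy'
          rw [mem_filter] at hy hy'
          exact codeg hxx hy.2.1 hy'.2.1 hy.2.2 hy'.2.2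
        rw [Finset.card_filter] at hc
        exact_mod_cast hc
    calc ∑ y, N y ^ 2 = ∑ y, ∑ x ∈ A, ∑ x' ∈ A,
          (if Rel x y ∧ Rel x' y then (1 : ℤ) else 0) := Finset.sum_congr rfl fun y _ => e1 y
      _ = ∑ x ∈ A, ∑ x' ∈ A, ∑ y, (if Rel x y ∧ Rel x' y then (1 : ℤ) else 0) := by
          rw [Finset.sum_comm]
          apply Finset.sum_congr rfl
          intro x _
          rw [Finset.sum_comm]
      _ ≤ ∑ x ∈ A, ∑ x' ∈ A, ((if x = x' then (p : ℤ) else 0) + 1) :=
          Finset.sum_le_sum fun x hx => Finset.sum_le_sum fun x' hx' => e2 x hx x' hx'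
      _ = ∑ x ∈ A, ((p : ℤ) + A.card) := by
          apply Finset.sum_congr rfl
          intro x hx
          rw [Finset.sum_add_distrib, Finset.sum_ite_eq, if_pos hx, Finset.sum_const,
            nsmul_eq_mul, mul_one]
      _ = _ := by rw [Finset.sum_const, nsmul_eq_mul]; ring
  have s3 : ∑ y, ((p : ℤ) * N y - A.card) ^ 2 ≤ (p : ℤ) ^ 3 * A.card := by
    have e : ∑ y, ((p : ℤ) * N y - A.card) ^ 2 = (p : ℤ) ^ 2 * ∑ y, N y ^ 2 -
        2 * p * A.card * ∑ y, N y + (p : ℤ) ^ 2 * (A.card : ℤ) ^ 2 := by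
      have c : (univ : Finset (ZMod p × ZMod p)).card = p ^ 2 := by
        rw [Finset.card_univ, Fintype.card_prod, ZMod.card]
        ring
      calc _ = ∑ y, ((p : ℤ) ^ 2 * N y ^ 2 - 2 * p * A.card * N y + (A.card : ℤ) ^ 2) := by
            apply Finset.sum_congr rfl
            intro y _
            ring
        _ = _ := by
            rw [Finset.sum_add_distrib, Finset.sum_sub_distrib, ← Finset.mul_sum,
              ← Finset.mul_sum, Finset.sum_const, c, nsmul_eq_mul]
            push_cast
            ring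
    rw [e, s1]
    have hp : (0 : ℤ) ≤ (p : ℤ) ^ 2 := by positivity
    have := mul_le_mul_of_nonneg_left s2 hp
    nlinarith [this]
  have s4 : (B.card : ℤ) * (A.card : ℤ) ^ 2 ≤ (p : ℤ) ^ 3 * A.card := by
    refine le_trans ?_ s3
    calc (B.card : ℤ) * (A.card : ℤ) ^ 2 = ∑ _y ∈ B, (A.card : ℤ) ^ 2 := by
          rw [Finset.sum_const, nsmul_eq_mul]
      _ = ∑ y ∈ B, ((p : ℤ) * N y - A.card) ^ 2 := by
          apply Finset.sum_congr rfl
          intro y hy
          have : N y = 0 := by
            rw [hN]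
            simp only [Nat.cast_eq_zero, Finset.card_eq_zero]
            exact Finset.filter_eq_empty_iff.2 fun x hx => h x hx y hy
          rw [this]
          ring
      _ ≤ _ := Finset.sum_le_sum_of_subset_of_nonneg (Finset.subset_univ _)
          fun y _ _ => sq_nonneg _
  have h0' : (0 : ℤ) < A.card := by exact_mod_cast h0
  have s5 : (A.card : ℤ) * ((A.card : ℤ) * B.card) ≤ (A.card : ℤ) * (p : ℤ) ^ 3 := by
    calc _ = (B.card : ℤ) * (A.card : ℤ) ^ 2 := by ring
      _ ≤ _ := s4
      _ = _ := by ring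
  have s6 := le_of_mul_le_mul_left s5 h0'
  exact_mod_cast s6

/-- Tool (J): on every set of at most `p ^ 2` vertices there is a graph without `4`-cycles which
joins any two disjoint sets with `|A| |B| > p ^ 3`. -/
theorem exists_graph (p : ℕ) (hp : p.Prime) (W : Type) [Fintype W] [DecidableEq W]
    (hW : Fintype.card W ≤ p ^ 2) : ∃ J : SimpleGraph W,
      (∀ x x' y y' : W, x ≠ x' → y ≠ y' → J.Adj x y → J.Adj x y' → J.Adj x' y → J.Adj x' y' →
        False) ∧
      ∀ A B : Finset W, Disjoint A B → p ^ 3 < A.card * B.card →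
        ∃ a ∈ A, ∃ b ∈ B, J.Adj a b := by
  have : Fact p.Prime := ⟨hp⟩
  have : NeZero p := ⟨hp.ne_zero⟩
  have hc : Fintype.card W ≤ Fintype.card (ZMod p × ZMod p) := by
    rw [Fintype.card_prod, ZMod.card]
    calc _ ≤ p ^ 2 := hW
      _ = _ := by ring
  obtain ⟨f⟩ := Function.Embedding.nonempty_of_card_le hc
  refine ⟨⟨fun x y => x ≠ y ∧ Rel (f x) (f y), ⟨fun x y h => ⟨h.1.symm, rel_symm h.2⟩⟩,
    ⟨fun x h => h.1 rfl⟩⟩, ?_, ?_⟩
  · intro x x' y y' hx hy h1 h2 h3 h4
    exact hy (f.injective (codeg (fun e => hx (f.injective e)) h1.2 h2.2 h3.2 h4.2))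
  · intro A B hAB hlt
    by_contra hcon
    push Not at hcon
    have h1 : (A.map f).card * (B.map f).card ≤ p ^ 3 := by
      apply edge
      intro x hx y hy
      rw [Finset.mem_map] at hx hy
      obtain ⟨a, ha, rfl⟩ := hx
      obtain ⟨b, hb, rfl⟩ := hy
      intro hr
      exact hcon a ha b hb ⟨fun e => (Finset.disjoint_left.1 hAB) ha (e ▸ hb), hr⟩
    rw [Finset.card_map, Finset.card_map] at h1
    omega

theorem prime_1049 : Nat.Prime 1049 := by norm_num

/-- Tool (J) with the numbers of the paper: `t = 34000`, `p = 1049`. -/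
theorem tool (W : Type) [Fintype W] [DecidableEq W] (hW : Fintype.card W ≤ 32 * 34000 + 8) :
    ∃ J : SimpleGraph W,
      (∀ x x' y y' : W, x ≠ x' → y ≠ y' → J.Adj x y → J.Adj x y' → J.Adj x' y → J.Adj x' y' →
        False) ∧
      ∀ A B : Finset W, Disjoint A B → 34000 - 2 ≤ A.card → 34000 - 2 ≤ B.card →
        ∃ a ∈ A, ∃ b ∈ B, J.Adj a b := by
  obtain ⟨J, h1, h2⟩ := exists_graph 1049 prime_1049 W (hW.trans (by norm_num))
  refine ⟨J, h1, fun A B hAB hA hB => h2 A B hAB ?_⟩
  calc 1049 ^ 3 < (34000 - 2) * (34000 - 2) := by norm_num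
    _ ≤ A.card * B.card := Nat.mul_le_mul hA hB

end Pool.Agent.NSR.H27
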